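import Mathlib
import Pool.Agent.Lib.MP_75c8a4_co.Defs
import Pool.Agent.Lib.MP_75c8a4_co.Seven.Upper
import Pool.Agent.Lib.MP_75c8a4_co.Seven.Lower

/-!
# The exact value `n_4 = 7`

Upper bound: if every quadruple of seven points in general position had two triangles of the same
circumradius, then the directions of the 21 lines (elements of an abelian group) would satisfy, for
every quadruple, one of six relations `u a c + u a d = u b c + u b d`. A case analysis, checked by
the kernel from certificates, shows that these relations always imply a degenerate relation, which
says that three points are collinear or four points are on a circle.

Lower bound: the six points `±(t, 1/t)`, `t = 2, 3, 4`, on the hyperbola `x y = 1`. The triangles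
with the parameters `x, y, t` and `x, y, -t` have the same circumradius.
-/

namespace Pool.Agent.Results.MP_75c8a4_co.ExactFour

open Pool.Agent.Lib.MP_75c8a4_co

/-- `n_4 = 7`: the least `m` such that every set of `m` points in general position contains four
points with distinct circumradii is seven. -/
theorem result : IsLeast {m : ℕ | Forces m 4} 7 :=
  ⟨Seven.forces_seven, fun _ h => Seven.lower (k := 4) le_rfl h⟩

end Pool.Agent.Results.MP_75c8a4_co.ExactFour
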