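import Mathlib
import Pool.Agent.Lib.MP_75c8a4_co.Defs
import Pool.Agent.Lib.MP_75c8a4_co.Seven.Lower

/-!
# The lower bound `n_k ≥ 2 k - 1` for all `k ≥ 4`

The points `±(t, 1/t)`, `t = 2, ..., k`, of the hyperbola `x y = 1` are in general position, and the
triangles with the parameters `x, y, t` and `x, y, -t` have the same circumradius. Among `k` of
these `2 k - 2` points there are two opposite points and two further ones.
-/

namespace Pool.Agent.Results.MP_75c8a4_co.LinearLowerBound

open Pool.Agent.Lib.MP_75c8a4_co

/-- For every `k ≥ 4`: if every set of `m` points in general position contains `k` points with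
distinct circumradii, then `m ≥ 2 k - 1`. -/
theorem result (k m : ℕ) (hk : 4 ≤ k) (h : Forces m k) : 2 * k - 1 ≤ m :=
  Seven.lower hk h

end Pool.Agent.Results.MP_75c8a4_co.LinearLowerBound
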