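import Mathlib
import Pool.Agent.Lib.MP_75c8a4_co.Defs
import Pool.Agent.Lib.MP_75c8a4_co.Lattice

/-!
# The lower bound `n_k ≥ k² exp(-10 √(log k))`

A set with distinct circumradii contains no parallelogram, because the two halves of a
parallelogram are congruent triangles. Generic planar projections of lattice points on a sphere
in high dimension are in general position and have only few sums of two points, so that their
parallelogram-free subsets are small.
-/

open Finset

namespace Pool.Agent.Results.MP_75c8a4_co.QuadraticLowerBound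

open Pool.Agent.Lib.MP_75c8a4_co

lemma one_le_of_forces {m k : ℕ} (hk : 1 ≤ k) (h : Forces m k) : 1 ≤ m := by
  by_contra hcon
  have hm : m = 0 := by omega
  subst hm
  obtain ⟨Y, hY, hYk, _⟩ := h ∅ rfl ⟨by
    intro T hT hT3
    rw [subset_empty.mp hT] at hT3
    simp at hT3, by
    intro Q hQ hQ4
    rw [subset_empty.mp hQ] at hQ4
    simp at hQ4⟩
  rw [subset_empty.mp hY] at hYk
  simp at hYk
  omega

/-- If `k² > 2 (2q)^d + k`, then `n_k` exceeds the size of the lattice set. -/
lemma card_lt_of_forces {m k d q : ℕ} (hd : 1 ≤ d) (hq : 1 ≤ q) (h : Forces m k)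
    (hk : 2 * (2 * q) ^ d + k < k * k) : q ^ d ≤ m * (d * q ^ 2) := by
  obtain ⟨X, hgen, hX, hsmall⟩ := exists_lattice_set d q hd hq
  have hlt : X.card ≤ m := by
    by_contra hcon
    push Not at hcon
    obtain ⟨X', hX', hcard⟩ := exists_subset_card_eq hcon.le
    have hgen' : GeneralPosition X' :=
      ⟨fun T hT => hgen.1 T (hT.trans hX'), fun Q hQ => hgen.2 Q (hQ.trans hX')⟩
    obtain ⟨Y, hY, hYk, hYd⟩ := h X' hcard hgen'
    have := hsmall Y (hY.trans hX') hYd
    rw [hYk] at this
    omega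
  exact hX.trans (Nat.mul_le_mul_right _ hlt)

/-- **Near-quadratic lower bound.** If every `m`-point set in general position contains `k` points
with distinct circumradii, then `m ≥ k² exp(-10 √(log k))`; in particular this bounds `n_k`,
the least such `m`. -/
theorem result (k m : ℕ) (hk : 1 ≤ k) (h : Forces m k) :
    (k : ℝ) ^ 2 * Real.exp (-(10 * √(Real.log k))) ≤ m := by
  have hm1 : (1 : ℝ) ≤ m := by exact_mod_cast one_le_of_forces hk h
  rcases Nat.lt_or_ge k 2 with hk2 | hk2
  · have : k = 1 := by omega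
    subst this
    simpa using hm1
  have hkR : (2 : ℝ) ≤ k := by exact_mod_cast hk2
  have hkpos : (0 : ℝ) < k := by linarith
  set K := Real.log k with hK
  set s := √K with hs
  have hK0 : Real.log 2 ≤ K := Real.log_le_log (by norm_num) hkR
  have hlog2 := Real.log_two_gt_d9
  have hlog2' := Real.log_two_lt_d9
  have hKpos : 0 < K := by linarith
  have hs2 : s * s = K := Real.mul_self_sqrt hKpos.le
  have hs1 : (83 / 100 : ℝ) ≤ s := by
    apply Real.le_sqrt_of_sq_le
    norm_num
    linarith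
  have hkexp : (k : ℝ) = Real.exp K := (Real.exp_log hkpos).symm
  have hk2exp : (k : ℝ) ^ 2 = Real.exp (2 * K) := by
    rw [hkexp, ← Real.exp_nat_mul]; norm_num
  set d := ⌈s⌉₊ with hd
  have hsd : s ≤ d := Nat.le_ceil s
  have hds : (d : ℝ) < s + 1 := Nat.ceil_lt_add_one (by linarith)
  have hd1 : 1 ≤ d := Nat.one_le_ceil_iff.mpr (by linarith)
  have hd0 : d ≠ 0 := by omega
  set y : ℝ := ((k : ℝ) ^ 2 / 5) ^ ((d : ℝ)⁻¹) with hy
  have hy0 : 0 < y := by positivity
  have hyd : y ^ d = (k : ℝ) ^ 2 / 5 := by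
    rw [hy]
    exact Real.rpow_inv_natCast_pow (by positivity) hd0
  have hpow : ∀ (b c : ℝ), 0 < b → Real.log b ≤ c → 0 ≤ c → (b : ℝ) ^ d ≤ Real.exp (c * (s + 1)) := by
    intro b c hb hbc hc
    have h1 : b ^ d = Real.exp (Real.log b * d) := by
      rw [← Real.rpow_natCast, Real.rpow_def_of_pos hb]
    rw [h1]
    apply Real.exp_le_exp.mpr
    calc Real.log b * d ≤ c * d := mul_le_mul_of_nonneg_right hbc (by positivity)
      _ ≤ c * (s + 1) := mul_le_mul_of_nonneg_left hds.le hc
  -- it suffices to compare with an exponential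
  suffices hsuff : (k : ℝ) ^ 2 ≤ m * Real.exp (10 * s) by
    rw [Real.exp_neg, ← div_eq_mul_inv, div_le_iff₀ (Real.exp_pos _)]
    exact hsuff
  rcases lt_or_ge y 2 with hy2 | hy2
  · have h1 : (k : ℝ) ^ 2 / 5 ≤ 2 ^ d := by
      rw [← hyd]
      exact pow_le_pow_left₀ hy0.le hy2.le d
    have h2 : (2 : ℝ) ^ d ≤ Real.exp (0.7 * (s + 1)) :=
      hpow 2 0.7 (by norm_num) (by norm_num; linarith) (by norm_num)
    have h5 : (5 : ℝ) ≤ Real.exp 2 := by
      have e1 := Real.exp_one_gt_d9
      have e2 : Real.exp 2 = Real.exp 1 * Real.exp 1 := by rw [← Real.exp_add]; norm_num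
      rw [e2]; nlinarith
    calc (k : ℝ) ^ 2 = 5 * ((k : ℝ) ^ 2 / 5) := by ring
      _ ≤ Real.exp 2 * Real.exp (0.7 * (s + 1)) := by
          apply mul_le_mul h5 (h1.trans h2) (by positivity) (Real.exp_pos _).le
      _ = Real.exp (2 + 0.7 * (s + 1)) := by rw [← Real.exp_add]
      _ ≤ Real.exp (10 * s) := by
          apply Real.exp_le_exp.mpr; norm_num; linarith
      _ ≤ m * Real.exp (10 * s) := by
          have := Real.exp_pos (10 * s)
          nlinarith
  · set q := ⌊y / 2⌋₊ with hq
    have hq_le : (q : ℝ) ≤ y / 2 := Nat.floor_le (by positivity)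
    have hq_gt : y / 2 < q + 1 := Nat.lt_floor_add_one _
    have hq1 : 1 ≤ q := Nat.one_le_floor_iff _ |>.mpr (by linarith)
    have hq1R : (1 : ℝ) ≤ q := by exact_mod_cast hq1
    have hq_ge : y / 4 ≤ q := by linarith
    have hcond : 2 * (2 * q) ^ d + k < k * k := by
      have h1 : ((2 * q : ℕ) : ℝ) ^ d ≤ y ^ d := by
        apply pow_le_pow_left₀ (by positivity)
        push_cast; linarith
      rw [hyd] at h1
      have h2 : ((2 * (2 * q) ^ d + k : ℕ) : ℝ) < ((k * k : ℕ) : ℝ) := by
        push_cast at h1 ⊢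
        nlinarith
      exact_mod_cast h2
    have hmain := card_lt_of_forces hd1 hq1 h hcond
    have hmainR : (q : ℝ) ^ d ≤ m * (d * (q : ℝ) ^ 2) := by exact_mod_cast hmain
    have h1 : (y / 4) ^ d ≤ m * (d * (y / 2) ^ 2) := by
      calc (y / 4) ^ d ≤ (q : ℝ) ^ d := pow_le_pow_left₀ (by positivity) hq_ge d
        _ ≤ m * (d * (q : ℝ) ^ 2) := hmainR
        _ ≤ m * (d * (y / 2) ^ 2) := by
            apply mul_le_mul_of_nonneg_left _ (by positivity)
            apply mul_le_mul_of_nonneg_left _ (by positivity)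
            exact pow_le_pow_left₀ (by positivity) hq_le 2
    rw [div_pow, hyd, div_le_iff₀ (by positivity)] at h1
    -- `k² / 5 ≤ m d (y/2)² 4^d`
    have hyexp : y ≤ Real.exp (2 * s) := by
      have h2 : y ^ d ≤ (Real.exp (2 * s)) ^ d := by
        rw [hyd, ← Real.exp_nat_mul]
        calc (k : ℝ) ^ 2 / 5 ≤ (k : ℝ) ^ 2 := by
              apply div_le_self (by positivity) (by norm_num)
          _ = Real.exp (2 * K) := hk2exp
          _ ≤ Real.exp (d * (2 * s)) := by
              apply Real.exp_le_exp.mpr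
              nlinarith
      exact le_of_pow_le_pow_left₀ hd0 (Real.exp_pos _).le h2
    have hy2exp : y ^ 2 ≤ Real.exp (4 * s) := by
      calc y ^ 2 ≤ (Real.exp (2 * s)) ^ 2 := pow_le_pow_left₀ hy0.le hyexp 2
        _ = Real.exp (4 * s) := by rw [← Real.exp_nat_mul]; congr 1; push_cast; ring
    have hd2 : (d : ℝ) ≤ 2 ^ d := by
      have : d < 2 ^ d := Nat.lt_two_pow_self
      exact_mod_cast this.le
    have h8 : (8 : ℝ) ^ d ≤ Real.exp (2.08 * (s + 1)) := by
      apply hpow 8 2.08 (by norm_num) _ (by norm_num)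
      have : Real.log 8 = 3 * Real.log 2 := by
        rw [show (8 : ℝ) = 2 ^ 3 by norm_num, Real.log_pow]; norm_num
      rw [this]; norm_num; linarith
    have hd4 : (d : ℝ) * 4 ^ d ≤ 8 ^ d := by
      calc (d : ℝ) * 4 ^ d ≤ 2 ^ d * 4 ^ d := mul_le_mul_of_nonneg_right hd2 (by positivity)
        _ = 8 ^ d := by rw [← mul_pow]; norm_num
    have h54 : (5 / 4 : ℝ) ≤ Real.exp (1 / 4) := by
      have := Real.add_one_le_exp (1 / 4 : ℝ)
      linarith
    calc (k : ℝ) ^ 2 = 5 * ((k : ℝ) ^ 2 / 5) := by ring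
      _ ≤ 5 * (m * (d * (y / 2) ^ 2) * 4 ^ d) := by linarith
      _ = m * (5 / 4 * ((d : ℝ) * 4 ^ d) * y ^ 2) := by ring
      _ ≤ m * (Real.exp (1 / 4) * Real.exp (2.08 * (s + 1)) * Real.exp (4 * s)) := by
          apply mul_le_mul_of_nonneg_left _ (by positivity)
          apply mul_le_mul _ hy2exp (by positivity) (by positivity)
          exact mul_le_mul h54 (hd4.trans h8) (by positivity) (by positivity)
      _ = m * Real.exp (1 / 4 + 2.08 * (s + 1) + 4 * s) := by
          rw [← Real.exp_add, ← Real.exp_add]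
      _ ≤ m * Real.exp (10 * s) := by
          apply mul_le_mul_of_nonneg_left _ (by positivity)
          apply Real.exp_le_exp.mpr
          norm_num; linarith

end Pool.Agent.Results.MP_75c8a4_co.QuadraticLowerBound
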