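import Mathlib
import Pool.Agent.Lib.MP_75c8a4_co.Defs
import Pool.Agent.Lib.MP_75c8a4_co.Deletion
import Pool.Agent.Lib.MP_75c8a4_co.Counting

/-!
# The quintic upper bound `n_k ≤ 36 k⁵`

In a set in general position, a pair of points lies in at most two triples of a given
circumradius. Hence the number of pairs of triples with equal circumradius is of order `n⁵`,
and deleting points from a random subset gives a subset of size of order `n^{1/5}` with distinct
circumradii.
-/

open Finset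

namespace Pool.Agent.Results.MP_75c8a4_co.QuinticUpperBound

open Pool.Agent.Lib.MP_75c8a4_co

/-- Every set of `36 k⁵` points in general position contains `k` points with distinct
circumradii. -/
theorem forces_of_le (k : ℕ) (hk : 1 ≤ k) (X : Finset Plane) (hcard : 36 * k ^ 5 ≤ X.card)
    (hX : GeneralPosition X) : ∃ Y ⊆ X, Y.card = k ∧ DistinctCircumradii Y := by
  classical
  have hrad : ∀ T ∈ X.powersetCard 3, ∃ r, IsCircumradius T r := by
    intro T hT
    rw [mem_powersetCard] at hT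
    exact exists_circumradius hT.2 (hX.1 T hT.1 hT.2)
  let rad : Finset Plane → ℝ := fun T => if h : ∃ r, IsCircumradius T r then h.choose else 0
  have hrad' : ∀ T ∈ X.powersetCard 3, IsCircumradius T (rad T) := by
    intro T hT
    have h := hrad T hT
    simp only [rad, dif_pos h]
    exact h.choose_spec
  let I : Finset ((_ : Finset Plane) × Finset Plane) :=
    (X.powersetCard 3).sigma (fun T => (triples X (rad T)).erase T)
  set n := X.card with hn
  have hnpos : 0 < n := by
    have : 0 < 36 * k ^ 5 := by positivity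
    omega
  have hk1 : (1 : ℝ) ≤ k := by exact_mod_cast hk
  have hkpos : (0 : ℝ) < k := by linarith
  have hnR : (0 : ℝ) < n := by exact_mod_cast hnpos
  have hnk : 36 * (k : ℝ) ^ 5 ≤ n := by exact_mod_cast hcard
  have hm : 2 * k ≤ n := by
    have : k ≤ k ^ 5 := Nat.le_self_pow (by norm_num) k
    omega
  have hsum : ∑ i ∈ I, (((2 * k : ℕ) : ℝ) / n) ^ (i.1 ∪ i.2).card ≤ ((2 * k : ℕ) : ℝ) - k := by
    set t : ℝ := ((2 * k : ℕ) : ℝ) / n with ht
    have ht' : t = 2 * k / n := by rw [ht]; push_cast; ring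
    have ht0 : 0 ≤ t := by positivity
    have h1 : ∑ i ∈ I, t ^ (i.1 ∪ i.2).card =
        ∑ T ∈ X.powersetCard 3, ∑ T' ∈ (triples X (rad T)).erase T, t ^ (T ∪ T').card := by
      rw [Finset.sum_sigma]
    rw [h1]
    have h2 : ∀ T ∈ X.powersetCard 3, ∑ T' ∈ (triples X (rad T)).erase T, t ^ (T ∪ T').card ≤
        6 * t ^ 4 + 3 * n * t ^ 5 + (n : ℝ) ^ 2 / 3 * t ^ 6 := by
      intro T hT
      apply sum_conflict_le hX (rad T) t ht0
      have hT' := mem_powersetCard.mp hT
      rw [mem_triples]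
      exact ⟨hT'.1, hT'.2, hrad' T hT⟩
    have h3 : ((X.powersetCard 3).card : ℝ) ≤ (n : ℝ) ^ 3 / 6 := by
      rw [card_powersetCard]
      have := Nat.choose_le_pow_div (α := ℝ) 3 n
      simpa [Nat.factorial] using this
    have h4 : 0 ≤ 6 * t ^ 4 + 3 * n * t ^ 5 + (n : ℝ) ^ 2 / 3 * t ^ 6 := by positivity
    calc ∑ T ∈ X.powersetCard 3, ∑ T' ∈ (triples X (rad T)).erase T, t ^ (T ∪ T').card
        ≤ ∑ T ∈ X.powersetCard 3, (6 * t ^ 4 + 3 * n * t ^ 5 + (n : ℝ) ^ 2 / 3 * t ^ 6) :=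
          sum_le_sum h2
      _ = ((X.powersetCard 3).card : ℝ) *
          (6 * t ^ 4 + 3 * n * t ^ 5 + (n : ℝ) ^ 2 / 3 * t ^ 6) := by
          rw [sum_const, nsmul_eq_mul]
      _ ≤ (n : ℝ) ^ 3 / 6 * (6 * t ^ 4 + 3 * n * t ^ 5 + (n : ℝ) ^ 2 / 3 * t ^ 6) :=
          mul_le_mul_of_nonneg_right h3 h4
      _ = (16 * (k : ℝ) ^ 4 + 16 * (k : ℝ) ^ 5 + 32 / 9 * (k : ℝ) ^ 6) / n := by
          rw [ht']; field_simp; ring
      _ ≤ (k : ℝ) := by
          rw [div_le_iff₀ hnR]
          have e1 : (k : ℝ) ^ 4 ≤ (k : ℝ) ^ 6 := pow_le_pow_right₀ hk1 (by norm_num)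
          have e2 : (k : ℝ) ^ 5 ≤ (k : ℝ) ^ 6 := pow_le_pow_right₀ hk1 (by norm_num)
          have e3 : (k : ℝ) * (36 * (k : ℝ) ^ 5) ≤ k * n :=
            mul_le_mul_of_nonneg_left hnk hkpos.le
          have e4 : (k : ℝ) * (36 * (k : ℝ) ^ 5) = 36 * (k : ℝ) ^ 6 := by ring
          have e5 : 0 < (k : ℝ) ^ 6 := by positivity
          linarith
      _ = ((2 * k : ℕ) : ℝ) - k := by push_cast; ring
  have hE : ∀ i ∈ I, i.1 ∪ i.2 ⊆ X := by
    intro i hi
    simp only [I, mem_sigma, mem_powersetCard, mem_erase, mem_triples] at hi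
    exact union_subset hi.1.1 hi.2.2.1
  have hne : ∀ i ∈ I, (i.1 ∪ i.2).Nonempty := by
    intro i hi
    simp only [I, mem_sigma, mem_powersetCard, mem_erase, mem_triples] at hi
    have h3 : i.1.Nonempty := by rw [← card_pos, hi.1.2]; norm_num
    exact h3.mono subset_union_left
  obtain ⟨Y, hYX, hYk, hY⟩ := exists_independent X I (fun i => i.1 ∪ i.2) hE hne (2 * k) k hm hsum
  refine ⟨Y, hYX, hYk, ?_⟩
  intro T hT T' hT' hT3 hT3' hTT' r r' hr hr' hrr
  subst hrr
  have hTX : T ∈ X.powersetCard 3 := mem_powersetCard.mpr ⟨hT.trans hYX, hT3⟩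
  have hradT : rad T = r := circumradius_unique hT3 (hrad' T hTX) hr
  apply hY ⟨T, T'⟩
  · simp only [I, mem_sigma, mem_erase, mem_triples]
    refine ⟨hTX, fun h => hTT' h.symm, hT'.trans hYX, hT3', ?_⟩
    rw [hradT]; exact hr'
  · exact union_subset hT hT'

/-- **Quintic upper bound.** The number `n_k`, the least `m` such that every `m`-point set in
general position contains a `k`-point subset with distinct circumradii, exists and satisfies
`n_k ≤ 36 k⁵`. -/
theorem result (k : ℕ) (hk : 1 ≤ k) :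
    ∃ N : ℕ, IsLeast {m : ℕ | Forces m k} N ∧ N ≤ 36 * k ^ 5 := by
  classical
  have hmem : Forces (36 * k ^ 5) k := by
    intro X hX hgen
    exact forces_of_le k hk X (by omega) hgen
  have hex : ∃ m, Forces m k := ⟨_, hmem⟩
  refine ⟨Nat.find hex, ⟨Nat.find_spec hex, ?_⟩, Nat.find_min' hex hmem⟩
  intro m hm
  exact Nat.find_min' hex hm

end Pool.Agent.Results.MP_75c8a4_co.QuinticUpperBound
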